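import Pool.Agent.Helper28.SO.Defs

set_option autoImplicit false

/-! SO-9: the cell as a Minkowski sum of faces of the simplex. -/

namespace Pool.Agent.Helper28.SO

theorem so9_prod_sum {n d : ℕ} (lam : Fin n → Fin d → ℝ) :
    ∑ f : Fin n → Fin d, ∏ i, lam i (f i) = ∏ i, ∑ c, lam i c := by
  rw [Finset.prod_univ_sum, Fintype.piFinset_univ]

theorem so9_marg {n d : ℕ} (lam : Fin n → Fin d → ℝ) (h1 : ∀ i, ∑ c, lam i c = 1) (i : Fin n)
    (k : Fin d) :
    ∑ f : Fin n → Fin d, (∏ j, lam j (f j)) * (if f i = k then 1 else 0) = lam i k := by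
  have h := so9_prod_sum (fun j c => if j = i then (if c = k then lam i c else 0) else lam j c)
  have h2 : ∀ f : Fin n → Fin d,
      ∏ j, (if j = i then (if f j = k then lam i (f j) else 0) else lam j (f j)) =
        (∏ j, lam j (f j)) * (if f i = k then 1 else 0) := by
    intro f
    rw [← Finset.mul_prod_erase _ _ (Finset.mem_univ i),
      ← Finset.mul_prod_erase _ (fun j => lam j (f j)) (Finset.mem_univ i), if_pos rfl]
    have h3 : ∏ j ∈ Finset.univ.erase i,
        (if j = i then (if f j = k then lam i (f j) else 0) else lam j (f j)) =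
        ∏ j ∈ Finset.univ.erase i, lam j (f j) :=
      Finset.prod_congr rfl fun j hj => if_neg (Finset.ne_of_mem_erase hj)
    rw [h3]
    split_ifs <;> ring
  rw [Finset.sum_congr rfl fun f _ => h2 f] at h
  rw [h, ← Finset.mul_prod_erase _ _ (Finset.mem_univ i)]
  have h4 : ∏ j ∈ Finset.univ.erase i,
      ∑ c, (if j = i then (if c = k then lam i c else 0) else lam j c) = 1 := by
    apply Finset.prod_eq_one
    intro j hj
    rw [← h1 j]
    exact Finset.sum_congr rfl fun c _ => if_neg (Finset.ne_of_mem_erase hj)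
  rw [h4, mul_one]
  simp

/-- SO-9. -/
theorem mem_cell_iff {n d : ℕ} (B : Fin n → Finset (Fin d)) (x : Fin d → ℝ) :
    x ∈ cell B ↔ ∃ lam : Fin n → Fin d → ℝ, (∀ i c, 0 ≤ lam i c) ∧ (∀ i, ∑ c, lam i c = 1) ∧
      (∀ i, ∀ c, c ∉ B i → lam i c = 0) ∧ ∀ c, x c = ∑ i, lam i c := by
  constructor
  · intro hx
    have hmin : cell B ⊆ {x : Fin d → ℝ | ∃ lam : Fin n → Fin d → ℝ, (∀ i c, 0 ≤ lam i c) ∧
        (∀ i, ∑ c, lam i c = 1) ∧ (∀ i, ∀ c, c ∉ B i → lam i c = 0) ∧
        ∀ c, x c = ∑ i, lam i c} := by
      apply convexHull_min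
      · rintro x ⟨f, hf, hx⟩
        refine ⟨fun i c => if f i = c then 1 else 0, ?_, ?_, ?_, ?_⟩
        · intro i c
          dsimp only
          split_ifs
          · exact zero_le_one
          · exact le_refl _
        · intro i
          simp
        · intro i c hc
          dsimp only
          rw [if_neg]
          rintro rfl
          exact hc (hf i)
        · intro c
          rw [hx c, Finset.card_filter]
          push_cast
          rfl
      · rintro x ⟨lam, h0, h1, h2, h3⟩ x' ⟨lam', h0', h1', h2', h3'⟩ a b ha hb hab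
        refine ⟨fun i c => a * lam i c + b * lam' i c, ?_, ?_, ?_, ?_⟩
        · intro i c
          exact add_nonneg (mul_nonneg ha (h0 i c)) (mul_nonneg hb (h0' i c))
        · intro i
          rw [Finset.sum_add_distrib, ← Finset.mul_sum, ← Finset.mul_sum, h1, h1', mul_one, mul_one,
            hab]
        · intro i c hc
          dsimp only
          rw [h2 i c hc, h2' i c hc, mul_zero, mul_zero, add_zero]
        · intro c
          rw [Finset.sum_add_distrib, ← Finset.mul_sum, ← Finset.mul_sum, ← h3, ← h3']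
          rfl
    exact hmin hx
  · rintro ⟨lam, h0, h1, h2, h3⟩
    classical
    set P : Finset (Fin n → Fin d) := Finset.univ.filter (fun f => ∀ i, f i ∈ B i) with hP
    have hzero : ∀ f : Fin n → Fin d, f ∉ P → ∏ i, lam i (f i) = 0 := by
      intro f hf
      have : ∃ i, f i ∉ B i := by
        by_contra hcon
        push Not at hcon
        exact hf (Finset.mem_filter.2 ⟨Finset.mem_univ _, hcon⟩)
      obtain ⟨i, hi⟩ := this
      exact Finset.prod_eq_zero (Finset.mem_univ i) (h2 i _ hi)
    have hsum1 : ∑ f ∈ P, ∏ i, lam i (f i) = 1 := by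
      have h4 : ∑ f ∈ P, ∏ i, lam i (f i) = ∑ f : Fin n → Fin d, ∏ i, lam i (f i) :=
        Finset.sum_subset (Finset.subset_univ P) fun f _ hf => hzero f hf
      rw [h4, so9_prod_sum]
      exact Finset.prod_eq_one fun i _ => h1 i
    have hx : x = ∑ f ∈ P, (∏ i, lam i (f i)) •
        (fun k : Fin d => ((Finset.univ.filter (fun i => f i = k)).card : ℝ)) := by
      funext k
      rw [h3 k, Finset.sum_apply]
      have h4 : ∀ f ∈ P, ((∏ i, lam i (f i)) •
          (fun k : Fin d => ((Finset.univ.filter (fun i => f i = k)).card : ℝ))) k =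
          ∑ i, (∏ j, lam j (f j)) * (if f i = k then 1 else 0) := by
        intro f _
        rw [Pi.smul_apply, smul_eq_mul, Finset.card_filter, ← Finset.mul_sum]
        push_cast
        rfl
      rw [Finset.sum_congr rfl h4, Finset.sum_comm]
      refine Finset.sum_congr rfl fun i _ => ?_
      have h5 : ∑ f ∈ P, (∏ j, lam j (f j)) * (if f i = k then 1 else 0) =
          ∑ f : Fin n → Fin d, (∏ j, lam j (f j)) * (if f i = k then 1 else 0) :=
        Finset.sum_subset (Finset.subset_univ P) fun f _ hf => by rw [hzero f hf, zero_mul]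
      rw [h5, so9_marg lam h1 i k]
    rw [hx]
    refine (convex_convexHull ℝ _).sum_mem (fun f _ => Finset.prod_nonneg fun i _ => h0 i _) hsum1 ?_
    intro f hf
    apply subset_convexHull
    exact ⟨f, (Finset.mem_filter.1 hf).2, fun k => rfl⟩

end Pool.Agent.Helper28.SO
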